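import Pool.Agent.Helper83.CK.St

/-! # Project CK: module E -/

namespace Pool.Agent.Helper35.CK
open Pool.Agent.Helper83.CK Cardinal Set
universe u

theorem mk_om {α : Type u} {t X : Set α} (h : t ⊆ X) (hc : t.Countable) (hi : t.Infinite) :
    t ∈ Om X := by
  refine ⟨h, le_antisymm ?_ ?_⟩
  · exact Cardinal.le_aleph0_iff_set_countable.2 hc
  · exact Cardinal.infinite_iff.1 hi.to_subtype

theorem exists_countable_superset {α : Type u} {X : Set α} (hX : X.Infinite) (x : ℕ → α)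
    (hx : ∀ n, x n ∈ X) : ∃ s : Set α, s ⊆ X ∧ s.Countable ∧ s.Infinite ∧ ∀ n, x n ∈ s := by
  let e := hX.natEmbedding
  refine ⟨range x ∪ range (fun n => (e n : α)), ?_, ?_, ?_, ?_⟩
  · rintro a (⟨n, rfl⟩ | ⟨n, rfl⟩)
    · exact hx n
    · exact (e n).2
  · exact (countable_range _).union (countable_range _)
  · refine Set.Infinite.mono subset_union_right ?_
    exact infinite_range_of_injective fun a b h => e.injective (Subtype.ext h)
  · intro n; exact Or.inl ⟨n, rfl⟩

theorem mE : StR.{u} → StF.{u} → StT.{u} → StE.{u} := by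
  intro hR hF hT α γ K hK hγ hC
  classical
  unfold Chang at hC
  push Not at hC
  obtain ⟨g, hg⟩ := hC
  letI : LinearOrder α := linearOrderOfSTO WellOrderingRel
  haveI : WellFoundedLT α := ⟨(WellOrderingRel.isWellOrder (α := α)).wf⟩
  obtain ⟨r, hr⟩ := hR α
  obtain ⟨ev, h1, h2, h3, -⟩ := hT α g
  have hγ0 : #γ ≠ 0 := (lt_of_le_of_lt zero_le hγ).ne'
  haveI : Nonempty γ := Cardinal.mk_ne_zero_iff.1 hγ0
  obtain ⟨φ⟩ := Cardinal.eq.1 hK
  let p : α → γ := fun a => if h : a ∈ K then φ ⟨a, h⟩ else Classical.arbitrary γ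
  have hp : InjOn p K := by
    intro a ha b hb hab
    simp only [p, dif_pos ha, dif_pos hb] at hab
    exact congrArg Subtype.val (φ.injective hab)
  have he : ∀ s : Set α, ∃ f : ℕ → α, s.Countable → s.Infinite → s = range f := by
    intro s
    by_cases h : s.Countable ∧ s.Infinite
    · obtain ⟨f, hf⟩ := h.1.exists_eq_range h.2.nonempty
      exact ⟨f, fun _ _ => hf⟩
    · by_cases hα : Nonempty α
      · exact ⟨fun _ => Classical.arbitrary α, fun a b => absurd ⟨a, b⟩ h⟩
      · exfalso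
        haveI := not_nonempty_iff.1 hα
        have : #K = 0 := by
          rw [Cardinal.mk_eq_zero_iff]; exact ⟨fun a => isEmptyElim (a : α)⟩
        exact hγ0 (hK ▸ this)
  choose e he using he
  let F : Set α → γ := fun t => p (ev (e (t \ Pool.Agent.Helper83.CK.fst t))
    (r (Pool.Agent.Helper83.CK.fst t)))
  refine ⟨F, fun X hX => ?_⟩
  refine le_antisymm (Cardinal.mk_set_le _) ?_
  have hXi : X.Infinite := by
    rw [← Set.infinite_coe_iff, Cardinal.infinite_iff, hX]; exact hγ.le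
  obtain ⟨w1, w2, w3⟩ := hF α X hXi
  set w := Pool.Agent.Helper83.CK.fst X with hw
  have hX' : #(X \ w : Set α) = #γ := by
    refine le_antisymm (hX ▸ Cardinal.mk_le_mk_of_subset sdiff_subset) ?_
    by_contra hlt
    rw [not_le] at hlt
    have a1 : #X ≤ #(X \ w : Set α) + #w := Cardinal.le_mk_sdiff_add_mk X w
    have a2 : #w < #γ := lt_of_le_of_lt (Cardinal.le_aleph0_iff_set_countable.2 w2) hγ
    have a3 := Cardinal.add_lt_of_lt hγ.le hlt a2
    rw [hX] at a1
    exact absurd a1 (not_le.2 a3)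
  have hX'i : (X \ w).Infinite := by
    rw [← Set.infinite_coe_iff, Cardinal.infinite_iff, hX']; exact hγ.le
  have hcl := h3 (X \ w)
  set C : Set α := {b | ∃ x : ℕ → α, (∀ m, x m ∈ X \ w) ∧ ∃ y, b = ev x y} with hCdef
  have hsub : X \ w ⊆ C := by
    intro a ha
    obtain ⟨y, hy⟩ := h1 (fun _ => a) 0
    exact ⟨fun _ => a, fun _ => ha, y, hy.symm⟩
  have hKC : #K ≤ #C := by
    rw [hK, ← hX']; exact Cardinal.mk_le_mk_of_subset hsub
  have hCK : #K ≤ #(C ∩ K : Set α) := hg C hcl hKC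
  have himg : #(p '' (C ∩ K)) = #(C ∩ K : Set α) :=
    Cardinal.mk_image_eq_of_injOn _ _ (hp.mono inter_subset_right)
  have key : p '' (C ∩ K) ⊆ F '' Om X := by
    rintro _ ⟨b, ⟨⟨x, hx, y, rfl⟩, -⟩, rfl⟩
    obtain ⟨s, s1, s2, s3, s4⟩ := exists_countable_superset hX'i x hx
    have es := he s s2 s3
    obtain ⟨y', hy'⟩ := h2 x (e s) (fun n => by
      have hm : x n ∈ range (e s) := es ▸ s4 n
      obtain ⟨m, hm⟩ := hm
      exact ⟨m, hm.symm⟩) y
    obtain ⟨v, v1, v2, v3⟩ := hr w w2 w1 y'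
    obtain ⟨f1, f2⟩ := w3 v v1 s s1 v2
    refine ⟨v ∪ s, mk_om ?_ ?_ ?_, ?_⟩
    · refine union_subset (v1.trans ?_) (s1.trans sdiff_subset)
      intro a ha; exact ha.1
    · exact (w2.mono v1).union s2
    · exact v2.mono subset_union_left
    · simp only [F, f1, f2, v3]
      rw [hy']
  calc #γ = #K := hK.symm
    _ ≤ #(C ∩ K : Set α) := hCK
    _ = #(p '' (C ∩ K)) := himg.symm
    _ ≤ #(F '' Om X) := Cardinal.mk_le_mk_of_subset key

end Pool.Agent.Helper35.CK
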